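import Mathlib
import Pool.Agent.H.MP_51e3d2_lc.B

namespace Pool.Agent.Results.MP_51e3d2_lc.Dec

open Pool.Agent.H.MP_51e3d2_lc Pool.Agent.Lib.helper21.PR

attribute [local irreducible] Primrec in
theorem result : ∃ f : ℕ × List (List (List ℕ)) × ℕ × ℕ → Bool, Computable f ∧ ∀ (A : Type) [HeytingAlgebra A] (n : ℕ) (e : A ≃ Fin n),
    f (tab e) = true ↔ HSC fun Γ φ => ∀ v : ℕ → A, (∀ ψ ∈ Γ, ψ.ev (ops A) ⊥ v = ⊤) → φ.ev (ops A) ⊥ v = ⊤ := by
  refine ⟨_, (pr_C (N := (·.1)) (by fun_prop) (M := fun _ _ => true) (by fun_prop) (Tp := fun a x => decide (x = a.2.2.2))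
    (Bt := fun a x => decide (x = a.2.2.1)) (R := fun a k x y z => decide (z = tb a.2.1 k x y))
    (by fun_prop) (by unfold tb; fun_prop) (by fun_prop)).to_comp, fun A _ n e => ?_⟩
  have := Finite.of_equiv _ e.symm
  simp only [cd_true, decide_eq_true_eq]
  refine .trans (cn_iff (o := ops A) (b := ⊥) (t := ⊤) e.injective (fun x h => iff_of_true trivial ⟨e.symm ⟨x, h⟩, by simp⟩) (fun _ _ => .rfl)
    (fun y => Fin.val_inj.trans e.apply_eq_iff_eq) fun k x y z _ => by rw [tb_tab]) (hsc_iff e.injective).symm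

end Pool.Agent.Results.MP_51e3d2_lc.Dec
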